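import Pool.Agent.H13.SSep.Core

set_option autoImplicit false

namespace Pool.Agent.Results.MP_656a26_gt.FreeNotSSeparable

open Topology

/-- `G` is strongly separable (S-separable): for every Hausdorff topological group `H` all of whose
closed subgroups are separable, every closed subgroup of `G × H` is separable. -/
def SSeparable (G : Type) [Group G] [TopologicalSpace G] : Prop :=
  ∀ (H : Type) [Group H] [TopologicalSpace H] [IsTopologicalGroup H] [T2Space H],
    (∀ K : Subgroup H, IsClosed (K : Set H) → TopologicalSpace.SeparableSpace K) →
      ∀ C : Subgroup (G × H), IsClosed (C : Set (G × H)) → TopologicalSpace.SeparableSpace C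

/-- The abstract free group on the set `[0,1]`. -/
def FI : Type := FreeGroup unitInterval

instance : Group FI := inferInstanceAs (Group (FreeGroup unitInterval))

/-- The canonical map of `[0,1]` to the free group. -/
def of : unitInterval → FI := FreeGroup.of

/-- The topology of the free topological group `F([0,1])`: the finest group topology on the abstract
free group for which the canonical map of `[0,1]` is continuous. -/
def freeTopology : TopologicalSpace FI := (GroupTopology.coinduced of).toTopologicalSpace

instance : TopologicalSpace FI := freeTopology

instance : IsTopologicalGroup FI := (GroupTopology.coinduced of).toIsTopologicalGroup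

theorem of_cont : Continuous of := GroupTopology.coinduced_continuous of

/-- the universal property -/
theorem lift_cont {G : Type} [Group G] [TopologicalSpace G] [IsTopologicalGroup G]
    (f : FI →* G) (hf : Continuous (fun t => f (of t))) : Continuous f := by
  rw [continuous_iff_le_induced]
  let b : GroupTopology FI :=
    { toTopologicalSpace := TopologicalSpace.induced f inferInstance
      toIsTopologicalGroup := topologicalGroup_induced f }
  have hb : TopologicalSpace.coinduced of inferInstance ≤ b.toTopologicalSpace := by
    rw [← continuous_iff_coinduced_le]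
    exact continuous_induced_rng.2 hf
  have h : GroupTopology.coinduced of ≤ b := sInf_le hb
  exact h

/-- the homomorphism onto the reals -/
noncomputable def pr : FI →* Multiplicative ℝ :=
  (FreeGroup.lift fun t : unitInterval => Multiplicative.ofAdd (t : ℝ) : FreeGroup unitInterval →* _)

theorem pr_of (t : unitInterval) : pr (of t) = Multiplicative.ofAdd (t : ℝ) := by
  show (FreeGroup.lift fun t : unitInterval => Multiplicative.ofAdd (t : ℝ)) (FreeGroup.of t) = _
  rw [FreeGroup.lift_apply_of]

theorem pr_cont : Continuous pr := by
  apply lift_cont
  simp only [pr_of]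
  exact continuous_ofAdd.comp continuous_subtype_val

/-- a topological group with a continuous homomorphism onto the reals is not S-separable -/
theorem not_of_hom {F : Type} [Group F] [TopologicalSpace F]
    (p : F →* Multiplicative ℝ) (hp : Continuous p) (hps : Function.Surjective p) :
    ¬ SSeparable F := by
  intro hS
  obtain ⟨H, i1, i2, i3, i4, hH, C, hC, hCn⟩ := Pool.Agent.H13.SSep.core
  have hT2 : T2Space (Multiplicative H) := i4
  let C' : Subgroup (F × Multiplicative H) :=
    { carrier := {z | (Multiplicative.toAdd (p z.1), Multiplicative.toAdd z.2) ∈ C}
      mul_mem' := by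
        intro a b ha hb
        have h := C.add_mem ha hb
        simpa using h
      one_mem' := by
        show (Multiplicative.toAdd (p 1), Multiplicative.toAdd (1 : Multiplicative H)) ∈ C
        rw [map_one]
        exact C.zero_mem
      inv_mem' := by
        intro a ha
        have h := C.neg_mem ha
        simpa using h }
  have hcm : Continuous fun z : F × Multiplicative H =>
      ((Multiplicative.toAdd (p z.1), Multiplicative.toAdd z.2) : ℝ × H) :=
    (continuous_toAdd.comp (hp.comp continuous_fst)).prodMk (continuous_toAdd.comp continuous_snd)
  have hC' : IsClosed (C' : Set (F × Multiplicative H)) := hC.preimage hcm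
  have hsep := hS (Multiplicative H) (fun K hK =>
    hH (AddSubgroup.toSubgroup.symm K) hK) C' hC'
  apply hCn
  let q : C' → C := fun z =>
    ⟨(Multiplicative.toAdd (p z.1.1), Multiplicative.toAdd z.1.2), z.2⟩
  have hq : Continuous q := (hcm.comp continuous_subtype_val).subtype_mk _
  have hqs : Function.Surjective q := by
    rintro ⟨⟨r, h⟩, hz⟩
    obtain ⟨w, hw⟩ := hps (Multiplicative.ofAdd r)
    refine ⟨⟨(w, Multiplicative.ofAdd h), ?_⟩, ?_⟩
    · show (Multiplicative.toAdd (p w), Multiplicative.toAdd (Multiplicative.ofAdd h)) ∈ C
      rw [hw]
      exact hz
    · apply Subtype.ext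
      show (Multiplicative.toAdd (p w), Multiplicative.toAdd (Multiplicative.ofAdd h)) = (r, h)
      rw [hw]
      rfl
  exact hqs.denseRange.separableSpace hq

theorem surj_of_unit {F : Type} [Group F] (p : F →* Multiplicative ℝ) (j : unitInterval → F)
    (hj : ∀ t, p (j t) = Multiplicative.ofAdd (t : ℝ)) : Function.Surjective p := by
  have hnn : ∀ r : ℝ, 0 ≤ r → ∃ w, p w = Multiplicative.ofAdd r := by
    intro r hr
    obtain ⟨n, hn⟩ := exists_nat_gt r
    have hn0 : (0 : ℝ) < n := lt_of_le_of_lt hr hn
    refine ⟨(j ⟨r / n, by positivity, by rw [div_le_one hn0]; exact hn.le⟩) ^ n, ?_⟩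
    rw [map_pow, hj, ← ofAdd_nsmul]
    congr 1
    simp only [nsmul_eq_mul]
    field_simp
  intro z
  rcases le_total 0 (Multiplicative.toAdd z) with h | h
  · exact hnn _ h
  · obtain ⟨w, hw⟩ := hnn (-(Multiplicative.toAdd z)) (by linarith)
    refine ⟨w⁻¹, ?_⟩
    rw [map_inv, hw]
    simp

/-- The free topological group `F([0,1])`, i.e. the abstract free group `FI` on `[0,1]` with the
finest group topology whose restriction to `[0,1]` is the original topology, is not S-separable
(the first two clauses say that the topology of `FI` is this topology).  The last clause says the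
same for every topological group `F` with a map `j : [0,1] → F` having the universal property. -/
theorem result :
    IsEmbedding of ∧
    (∀ t : TopologicalSpace FI, @IsTopologicalGroup FI t _ → @IsEmbedding _ _ _ t of →
      freeTopology ≤ t) ∧
    ¬ SSeparable FI ∧
    (∀ (F : Type) [Group F] [TopologicalSpace F] [IsTopologicalGroup F] (j : unitInterval → F),
      (∀ (G : Type) [Group G] [TopologicalSpace G] [IsTopologicalGroup G] (f : unitInterval → G),
        Continuous f → ∃ φ : F →* G, Continuous φ ∧ ∀ t, φ (j t) = f t) →
      ¬ SSeparable F) := by
  refine ⟨?_, ?_, not_of_hom pr pr_cont (surj_of_unit pr of pr_of), ?_⟩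
  · have h : IsEmbedding (fun t => Multiplicative.toAdd (pr (of t))) := by
      simp only [pr_of]
      exact Topology.IsEmbedding.subtypeVal
    exact IsEmbedding.of_comp of_cont (continuous_toAdd.comp pr_cont) h
  · intro t ht he
    let b : GroupTopology FI := { toTopologicalSpace := t, toIsTopologicalGroup := ht }
    have hb : TopologicalSpace.coinduced of inferInstance ≤ b.toTopologicalSpace := by
      rw [← continuous_iff_coinduced_le]
      exact he.continuous
    have h : GroupTopology.coinduced of ≤ b := sInf_le hb
    exact h
  · intro F _ _ _ j hF
    obtain ⟨φ, hφ, hj⟩ := hF (Multiplicative ℝ)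
      (fun t => Multiplicative.ofAdd (t : ℝ)) (continuous_ofAdd.comp continuous_subtype_val)
    exact not_of_hom φ hφ (surj_of_unit φ j hj)

end Pool.Agent.Results.MP_656a26_gt.FreeNotSSeparable
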